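import Mathlib
import Pool.Agent.MP_d23910_co.All

set_option autoImplicit false

namespace Pool.Agent.Results.MP_d23910_co.Semicontinuity

open Pool.Agent.MP_d23910_co

/-- The chromatic number of the sphere is lower semicontinuous at every transcendental radius. -/
theorem result (r₀ : ℝ) (hr : 0 < r₀) (ht : Transcendental ℚ r₀) :
    ∃ ε : ℝ, 0 < ε ∧ ∀ r : ℝ, |r - r₀| < ε →
      (SimpleGraph.fromRel
        (fun x y : Metric.sphere (0 : EuclideanSpace ℝ (Fin 3)) r₀ =>
          dist (x : EuclideanSpace ℝ (Fin 3)) (y : EuclideanSpace ℝ (Fin 3)) = 1)).chromaticNumber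
      ≤
      (SimpleGraph.fromRel
        (fun x y : Metric.sphere (0 : EuclideanSpace ℝ (Fin 3)) r =>
          dist (x : EuclideanSpace ℝ (Fin 3)) (y : EuclideanSpace ℝ (Fin 3)) = 1)).chromaticNumber := by
  change ∃ ε : ℝ, 0 < ε ∧ ∀ r : ℝ, |r - r₀| < ε →
    (sphG r₀).chromaticNumber ≤ (sphG r).chromaticNumber
  obtain ⟨k, hk⟩ := ENat.ne_top_iff_exists.1
    (SimpleGraph.chromaticNumber_ne_top_iff_exists.2 ⟨9, nine hr⟩)
  rcases k with _ | k
  · exact ⟨1, one_pos, fun r _ => by rw [← hk]; simp⟩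
  have h1 : ¬ (sphG r₀).Colorable k := by
    rw [← SimpleGraph.chromaticNumber_le_iff_colorable, ← hk]
    norm_cast
    omega
  obtain ⟨ε, hε, h2⟩ := Metric.eventually_nhds_iff.1 (lsc_colorable r₀ hr ht k h1)
  refine ⟨ε, hε, fun r h => ?_⟩
  have h3 := h2 (y := r) (by rwa [Real.dist_eq])
  rw [← SimpleGraph.chromaticNumber_le_iff_colorable, not_le] at h3
  rw [← hk]
  exact Order.add_one_le_of_lt h3

end Pool.Agent.Results.MP_d23910_co.Semicontinuity
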