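import Mathlib
import Pool.Agent.MP_d23910_co.S7.Chain

set_option autoImplicit false

namespace Pool.Agent.Results.MP_d23910_co.SevenColours

/-- The unit distance graph of the 2-dimensional sphere of radius `r` has chromatic number at
most 7 whenever `√3 / 2 ≤ r ≤ 12.44`. -/
theorem result (r : ℝ) (h1 : √3 / 2 ≤ r) (h2 : r ≤ 12.44) :
    (SimpleGraph.fromRel
      (fun x y : Metric.sphere (0 : EuclideanSpace ℝ (Fin 3)) r =>
        dist (x : EuclideanSpace ℝ (Fin 3)) (y : EuclideanSpace ℝ (Fin 3)) = 1)).chromaticNumber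
      ≤ 7 := by
  have h3 : (1.732 : ℝ) ≤ √3 := Real.le_sqrt_of_sq_le (by norm_num)
  have h := Pool.Agent.MP_d23910_co.S7.chain r (by linarith) (by push_cast; linarith)
    (by push_cast; linarith)
  exact h.chromaticNumber_le

end Pool.Agent.Results.MP_d23910_co.SevenColours
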