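import Mathlib
import Pool.Agent.MP_d23910_co.tet.Main

set_option autoImplicit false

namespace Pool.Agent.Results.MP_d23910_co.TetraFive

/-- The unit distance graph of the sphere of radius `√(3/8)`, the circumsphere of the regular
tetrahedron with unit edges, has chromatic number at least 5. -/
theorem result :
    5 ≤ (SimpleGraph.fromRel
      (fun x y : Metric.sphere (0 : EuclideanSpace ℝ (Fin 3)) (√(3 / 8)) =>
        dist (x : EuclideanSpace ℝ (Fin 3)) (y : EuclideanSpace ℝ (Fin 3)) = 1)).chromaticNumber := by
  by_contra h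
  refine Pool.Agent.MP_d23910_co.Tet.not_col (SimpleGraph.chromaticNumber_le_iff_colorable.1 ?_)
  have h1 := not_le.1 h
  have e : (5 : ℕ∞) = (4 : ℕ) + 1 := rfl
  rw [e] at h1
  exact Order.le_of_lt_add_one h1

end Pool.Agent.Results.MP_d23910_co.TetraFive
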